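import Mathlib

/-!
Lemma P: a finite group `V` with `m` different maximal normal subgroups with non-abelian simple quotients and trivial
intersection; a subgroup `Y` containing no non-trivial normal subgroup of `V` has `2 ^ m <= index ^ 2`.
-/

namespace Pool.Agent.Helper7.BC

open Subgroup
open scoped commutatorElement

/-- `M` is a maximal normal subgroup with non-abelian (simple) quotient. -/
structure MN {V : Type*} [Group V] (M : Subgroup V) : Prop where
  nor : M.Normal
  ne : M ≠ ⊤
  max : ∀ K : Subgroup V, K.Normal → M ≤ K → K = M ∨ K = ⊤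
  na : ¬ commutator V ≤ M

variable {V : Type*} [Group V]

theorem map_mk_top {M A : Subgroup V} [M.Normal] (h : A ⊔ M = ⊤) :
    A.map (QuotientGroup.mk' M) = ⊤ := by
  have h1 : (A ⊔ M).map (QuotientGroup.mk' M) = ⊤ := by
    rw [h]
    exact Subgroup.map_top_of_surjective _ (QuotientGroup.mk'_surjective M)
  rw [Subgroup.map_sup] at h1
  have h2 : M.map (QuotientGroup.mk' M) = ⊥ := by
    rw [Subgroup.map_eq_bot_iff, QuotientGroup.ker_mk']
  rw [h2, sup_bot_eq] at h1
  exact h1

theorem MN.sup {M A : Subgroup V} (h : MN M) (hA : A.Normal) (h1 : ¬ A ≤ M) : A ⊔ M = ⊤ := by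
  have := h.nor
  have := hA
  rcases h.max (A ⊔ M) inferInstance le_sup_right with h2 | h2
  · exact absurd (le_sup_left.trans h2.le) h1
  · exact h2

theorem MN.prime {M A B : Subgroup V} (h : MN M) (hA : A.Normal) (hB : B.Normal) (h1 : ¬ A ≤ M)
    (h2 : ¬ B ≤ M) : ¬ ⁅A, B⁆ ≤ M := by
  intro h3
  have := h.nor
  apply h.na
  have e1 := map_mk_top (h.sup hA h1)
  have e2 := map_mk_top (h.sup hB h2)
  have e3 : (commutator V).map (QuotientGroup.mk' M) = ⊥ := by
    rw [commutator_def, Subgroup.map_commutator,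
      Subgroup.map_top_of_surjective _ (QuotientGroup.mk'_surjective M)]
    calc ⁅(⊤ : Subgroup (V ⧸ M)), (⊤ : Subgroup (V ⧸ M))⁆
        = ⁅A.map (QuotientGroup.mk' M), B.map (QuotientGroup.mk' M)⁆ := by rw [e1, e2]
      _ = (⁅A, B⁆).map (QuotientGroup.mk' M) := (Subgroup.map_commutator _ _ _).symm
      _ = ⊥ := by rw [Subgroup.map_eq_bot_iff, QuotientGroup.ker_mk']; exact h3
  rw [Subgroup.map_eq_bot_iff, QuotientGroup.ker_mk'] at e3
  exact e3

variable {ι : Type*} {N : ι → Subgroup V}

theorem infNormal (hN : ∀ i, MN (N i)) (s : Finset ι) : (s.inf N).Normal := by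
  classical
  induction s using Finset.induction_on with
  | empty => rw [Finset.inf_empty]; infer_instance
  | insert a s _ ih =>
    rw [Finset.inf_insert]
    have := ih
    have := (hN a).nor
    infer_instance

theorem le_imp_eq (hN : ∀ i, MN (N i)) {i j : ι} (h : N i ≤ N j) : N i = N j := by
  rcases (hN i).max (N j) (hN j).nor h with h1 | h1
  · exact h1.symm
  · exact absurd h1 (hN j).ne

theorem inf_not_le (hN : ∀ i, MN (N i)) (hinj : Function.Injective N) (s : Finset ι) {j : ι}
    (hj : j ∉ s) : ¬ s.inf N ≤ N j := by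
  classical
  induction s using Finset.induction_on with
  | empty =>
    rw [Finset.inf_empty]
    intro h
    exact (hN j).ne (top_le_iff.mp h)
  | insert a s _ ih =>
    rw [Finset.inf_insert]
    have hja : j ≠ a := fun h => hj (h ▸ Finset.mem_insert_self _ _)
    have hjs : j ∉ s := fun h => hj (Finset.mem_insert_of_mem h)
    have h1 : ¬ N a ≤ N j := fun h => hja (hinj (le_imp_eq hN h)).symm
    intro h
    have := (hN a).nor
    have := infNormal hN s
    exact (hN j).prime (hN a).nor (infNormal hN s) h1 (ih hjs)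
      ((Subgroup.commutator_le_inf _ _).trans h)

theorem inf_sup (hN : ∀ i, MN (N i)) (hinj : Function.Injective N) (s : Finset ι) {j : ι}
    (hj : j ∉ s) : s.inf N ⊔ N j = ⊤ :=
  (hN j).sup (infNormal hN s) (inf_not_le hN hinj s hj)

theorem index_inf [Finite V] (hN : ∀ i, MN (N i)) (hinj : Function.Injective N)
    (s : Finset ι) : (s.inf N).index = ∏ i ∈ s, (N i).index := by
  classical
  induction s using Finset.induction_on with
  | empty => rw [Finset.inf_empty, Finset.prod_empty, Subgroup.index_top]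
  | insert a s ha ih =>
    rw [Finset.inf_insert, Finset.prod_insert ha, ← ih,
      ← Subgroup.relIndex_mul_index (H := N a ⊓ s.inf N) (K := s.inf N) inf_le_right,
      Subgroup.inf_relIndex_right]
    have := (hN a).nor
    have h1 : (N a).relIndex (s.inf N) = (N a).index := by
      rw [← Subgroup.relIndex_sup_right (s.inf N) (N a), inf_sup hN hinj s ha,
        Subgroup.relIndex_top_right]
    rw [h1]

theorem two_le_index [Finite V] (hN : ∀ i, MN (N i)) (i : ι) : 2 ≤ (N i).index := by
  have h1 : (N i).index ≠ 0 := Subgroup.index_ne_zero_of_finite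
  have h2 : (N i).index ≠ 1 := by
    intro h
    exact (hN i).ne (Subgroup.index_eq_one.mp h)
  omega

theorem pow_le_index_inf [Finite V] (hN : ∀ i, MN (N i)) (hinj : Function.Injective N)
    (s : Finset ι) : 2 ^ s.card ≤ (s.inf N).index := by
  rw [index_inf hN hinj, ← Finset.prod_const]
  exact Finset.prod_le_prod' fun i _ => two_le_index hN i

/-- proper coordinates give a factor two each -/
theorem pow_le_index [Finite V] (hN : ∀ i, MN (N i)) (hinj : Function.Injective N)
    (Z : Subgroup V) (B : Finset ι) (hB : ∀ i ∈ B, Z ⊔ N i ≠ ⊤) : 2 ^ B.card ≤ Z.index := by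
  classical
  have key : ∀ s : Finset ι, s ⊆ B → 2 ^ s.card ≤ (s.inf fun i => Z ⊔ N i).index := by
    intro s
    induction s using Finset.induction_on with
    | empty => intro _; rw [Finset.inf_empty, Finset.card_empty, Subgroup.index_top, pow_zero]
    | insert a s ha ih =>
      intro hs
      have hs' : s ⊆ B := (Finset.subset_insert a s).trans hs
      have haB : a ∈ B := hs (Finset.mem_insert_self a s)
      have ih' := ih hs'
      rw [Finset.inf_insert, Finset.card_insert_of_notMem ha,
        ← Subgroup.relIndex_mul_index (H := (Z ⊔ N a) ⊓ s.inf fun i => Z ⊔ N i)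
          (K := s.inf fun i => Z ⊔ N i) inf_le_right, Subgroup.inf_relIndex_right]
      have h0 : (Z ⊔ N a).relIndex (s.inf fun i => Z ⊔ N i) ≠ 0 :=
        Subgroup.index_ne_zero_of_finite
      have h1 : (Z ⊔ N a).relIndex (s.inf fun i => Z ⊔ N i) ≠ 1 := by
        intro h
        rw [Subgroup.relIndex_eq_one] at h
        have h2 : s.inf N ≤ s.inf fun i => Z ⊔ N i :=
          Finset.inf_mono_fun fun i _ => le_sup_right
        have h3 : s.inf N ⊔ N a ≤ Z ⊔ N a := sup_le (h2.trans h) le_sup_right
        rw [inf_sup hN hinj s ha] at h3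
        exact hB a haB (top_le_iff.mp h3)
      rw [pow_succ']
      exact Nat.mul_le_mul (by omega) ih'
  refine (key B subset_rfl).trans ?_
  have h1 : Z ≤ B.inf fun i => Z ⊔ N i := Finset.le_inf fun i _ => le_sup_left
  exact Nat.le_of_dvd (Nat.pos_of_ne_zero Subgroup.index_ne_zero_of_finite)
    (Subgroup.index_dvd_of_le h1)

/-- an element which commutes modulo `M` with a normal piece that is not inside `M` lies in `M` -/
theorem mem_of_comm {M : Subgroup V} (h : MN M) {x : V} {W : Subgroup V}
    (hW : W ⊔ M = ⊤) (hx : ∀ y ∈ W, ⁅x, y⁆ ∈ M) : x ∈ M := by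
  have := h.nor
  have hW2 := map_mk_top hW
  -- the image of `x` is central
  have hc : (QuotientGroup.mk' M x) ∈ Subgroup.center (V ⧸ M) := by
    rw [Subgroup.mem_center_iff]
    intro q
    have hq : q ∈ W.map (QuotientGroup.mk' M) := by rw [hW2]; exact Subgroup.mem_top q
    obtain ⟨y, hy, rfl⟩ := hq
    have h1 : QuotientGroup.mk' M ⁅x, y⁆ = 1 := by
      rw [QuotientGroup.mk'_apply, QuotientGroup.eq_one_iff]
      exact hx y hy
    rw [map_commutatorElement, commutatorElement_eq_one_iff_mul_comm] at h1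
    exact h1.symm
  -- the preimage of the centre is normal
  have hK : ((Subgroup.center (V ⧸ M)).comap (QuotientGroup.mk' M)).Normal := inferInstance
  rcases h.max _ hK (by
    intro m hm
    rw [Subgroup.mem_comap]
    have h1 : QuotientGroup.mk' M m = 1 := by
      rw [QuotientGroup.mk'_apply, QuotientGroup.eq_one_iff]; exact hm
    rw [h1]
    exact Subgroup.one_mem _) with h1 | h1
  · rw [← h1, Subgroup.mem_comap]
    exact hc
  · exfalso
    apply h.na
    rw [_root_.commutator_def, Subgroup.commutator_le]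
    intro a _ b _
    have ha : a ∈ (Subgroup.center (V ⧸ M)).comap (QuotientGroup.mk' M) := by
      rw [h1]; exact Subgroup.mem_top a
    rw [Subgroup.mem_comap, Subgroup.mem_center_iff] at ha
    have h2 := ha (QuotientGroup.mk' M b)
    have h3 : QuotientGroup.mk' M ⁅a, b⁆ = 1 := by
      rw [map_commutatorElement, commutatorElement_eq_one_iff_mul_comm]
      exact h2.symm
    rw [QuotientGroup.mk'_apply, QuotientGroup.eq_one_iff] at h3
    exact h3

/-- if `Y` covers `V / M` and `T` is normal in `V` and `Y ⊓ T` is not inside `M`, then `Y ⊓ T` covers `V / M` -/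
theorem cover {M : Subgroup V} (h : MN M) {Y T : Subgroup V} (hT : T.Normal) (hY : Y ⊔ M = ⊤)
    (h1 : ¬ Y ⊓ T ≤ M) : (Y ⊓ T) ⊔ M = ⊤ := by
  have := h.nor
  have := hT
  have hn : ((Y ⊓ T) ⊔ M).Normal := by
    rw [← Subgroup.normalizer_eq_top_iff, ← top_le_iff, ← hY]
    refine sup_le ?_ ?_
    · intro y hy
      rw [Subgroup.mem_normalizer_iff]
      have key : ∀ z ∈ Y, ∀ w ∈ (Y ⊓ T) ⊔ M, z * w * z⁻¹ ∈ (Y ⊓ T) ⊔ M := by
        intro z hz w hw
        rw [← SetLike.mem_coe, Subgroup.mul_normal] at hw
        obtain ⟨a, ha, b, hb, rfl⟩ := hw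
        have e : z * (a * b) * z⁻¹ = (z * a * z⁻¹) * (z * b * z⁻¹) := by group
        rw [e]
        refine Subgroup.mul_mem_sup ⟨?_, ?_⟩ (Subgroup.Normal.conj_mem ‹M.Normal› b hb z)
        · exact Y.mul_mem (Y.mul_mem hz ha.1) (Y.inv_mem hz)
        · exact hT.conj_mem a ha.2 z
      intro w
      constructor
      · exact key y hy w
      · intro hw
        have := key y⁻¹ (Y.inv_mem hy) _ hw
        have e : y⁻¹ * (y * w * y⁻¹) * y⁻¹⁻¹ = w := by group
        rw [e] at this
        exact this
    · exact le_sup_right.trans Subgroup.le_normalizer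
  rcases h.max _ hn le_sup_right with h2 | h2
  · exact absurd (le_sup_left.trans h2.le) h1
  · exact h2

/-- the order of the part `T_I` (elements trivial outside `I`) -/
theorem card_part [Finite V] [Fintype ι] [DecidableEq ι] (hN : ∀ i, MN (N i))
    (hinj : Function.Injective N) (hbot : Finset.univ.inf N = ⊥) (I : Finset ι) :
    Nat.card (Iᶜ.inf N : Subgroup V) = (I.inf N).index := by
  have h1 : Nat.card (Iᶜ.inf N : Subgroup V) * (Iᶜ.inf N).index = Nat.card V :=
    Subgroup.card_mul_index _
  have h2 : (Finset.univ.inf N).index = Nat.card V := by rw [hbot, Subgroup.index_bot]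
  rw [index_inf hN hinj, ← Finset.prod_mul_prod_compl I] at h2
  rw [index_inf hN hinj] at h1 ⊢
  rw [← h2] at h1
  have h3 : 0 < ∏ i ∈ Iᶜ, (N i).index :=
    Finset.prod_pos fun i _ => lt_of_lt_of_le (by norm_num) (two_le_index hN i)
  exact Nat.eq_of_mul_eq_mul_right h3 h1

theorem lemP [Finite V] [Fintype ι] (hN : ∀ i, MN (N i))
    (hinj : Function.Injective N) (hbot : ∀ x : V, (∀ i, x ∈ N i) → x = 1) (Y : Subgroup V)
    (hY : ∀ K : Subgroup V, K.Normal → K ≤ Y → K = ⊥) :
    2 ^ Fintype.card ι ≤ Y.index ^ 2 := by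
  classical
  have memInf : ∀ (s : Finset ι) (x : V), x ∈ s.inf N ↔ ∀ i ∈ s, x ∈ N i := by
    intro s x
    induction s using Finset.induction_on with
    | empty => simp
    | insert a s ha ih =>
      rw [Finset.inf_insert, Subgroup.mem_inf, ih]
      simp
  have hbot' : Finset.univ.inf N = ⊥ := by
    rw [eq_bot_iff]
    intro x hx
    rw [memInf] at hx
    exact hbot x fun i => hx i (Finset.mem_univ i)
  -- choice of `I`
  obtain ⟨I, hI, hmax⟩ : ∃ I : Finset ι, Y ⊓ Iᶜ.inf N = ⊥ ∧
      ∀ I' : Finset ι, Y ⊓ I'ᶜ.inf N = ⊥ → I'.card ≤ I.card := by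
    have hne : (Finset.univ.filter fun I : Finset ι => Y ⊓ Iᶜ.inf N = ⊥).Nonempty := by
      refine ⟨∅, ?_⟩
      rw [Finset.mem_filter]
      refine ⟨Finset.mem_univ _, ?_⟩
      rw [Finset.compl_empty, hbot', inf_bot_eq]
    obtain ⟨I, h1, h2⟩ := Finset.exists_max_image _ (fun I : Finset ι => I.card) hne
    rw [Finset.mem_filter] at h1
    refine ⟨I, h1.2, fun I' h3 => h2 I' ?_⟩
    rw [Finset.mem_filter]
    exact ⟨Finset.mem_univ _, h3⟩
  set T := Iᶜ.inf N with hT
  have hTn : T.Normal := infNormal hN _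
  -- the pieces `W j`
  let W : ι → Subgroup V := fun j => Y ⊓ (insert j I)ᶜ.inf N
  have hW : ∀ j, j ∉ I → W j ≠ ⊥ := by
    intro j hj h
    have := hmax _ h
    rw [Finset.card_insert_of_notMem hj] at this
    omega
  have hWj : ∀ j, j ∉ I → ¬ W j ≤ N j := by
    intro j hj h
    apply hW j hj
    rw [eq_bot_iff, ← hI]
    intro x hx
    obtain ⟨hxa, h2⟩ := Subgroup.mem_inf.mp hx
    refine Subgroup.mem_inf.mpr ⟨hxa, ?_⟩
    rw [hT]
    rw [memInf] at h2 ⊢
    intro i hi
    by_cases hij : i = j
    · rw [hij]; exact h hx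
    · apply h2
      rw [Finset.mem_compl] at hi ⊢
      rw [Finset.mem_insert]
      push Not
      exact ⟨hij, hi⟩
  -- the three parts of the index set
  let J : Finset ι := Iᶜ.filter fun j => Y ⊔ N j = ⊤
  let B : Finset ι := Iᶜ.filter fun j => ¬ Y ⊔ N j = ⊤
  have hcard : Fintype.card ι = I.card + (J.card + B.card) := by
    rw [Finset.card_filter_add_card_filter_not, Finset.card_add_card_compl]
  -- index of `Y`
  have hidx : Y.index = (Y ⊔ T).index * Nat.card T := by
    have e1 : Nat.card Y * Y.index = Nat.card V := Subgroup.card_mul_index _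
    have e2 : Nat.card (Y ⊔ T : Subgroup V) * (Y ⊔ T).index = Nat.card V :=
      Subgroup.card_mul_index _
    have e3 : Nat.card T * T.relIndex (Y ⊔ T) = Nat.card (Y ⊔ T : Subgroup V) := by
      rw [← Subgroup.relIndex_bot_left, ← Subgroup.relIndex_bot_left]
      exact Subgroup.relIndex_mul_relIndex _ _ _ bot_le le_sup_right
    have e4 : T.relIndex (Y ⊔ T) = Nat.card Y := by
      rw [Subgroup.relIndex_sup_right, ← Subgroup.inf_relIndex_right, inf_comm, hI,
        Subgroup.relIndex_bot_left]
    rw [e4] at e3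
    rw [← e3, ← e1] at e2
    have hpos : 0 < Nat.card Y := Nat.card_pos
    have e5 : Nat.card Y * ((Y ⊔ T).index * Nat.card T) = Nat.card Y * Y.index := by
      rw [← e2]; ring
    exact (Nat.eq_of_mul_eq_mul_left hpos e5).symm
  have hTcard : Nat.card T = (I.inf N).index := card_part hN hinj hbot' I
  have b1 : 2 ^ I.card ≤ Nat.card T := by
    rw [hTcard]; exact pow_le_index_inf hN hinj I
  have b2 : 2 ^ B.card ≤ (Y ⊔ T).index := by
    apply pow_le_index hN hinj
    intro i hi h
    rw [Finset.mem_filter] at hi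
    apply hi.2
    have h1 : T ≤ N i := Finset.inf_le hi.1
    rw [eq_top_iff, ← h]
    exact sup_le (sup_le le_sup_left (h1.trans le_sup_right)) le_sup_right
  -- the product of the pieces
  have hP : ∀ s : Finset ι, s ⊆ J → 2 ^ s.card ≤ Nat.card (s.sup W : Subgroup V) ∧
      s.sup W ≤ Y ∧ ∀ i, i ∉ I → i ∉ s → s.sup W ≤ N i := by
    intro s
    induction s using Finset.induction_on with
    | empty =>
      intro _
      rw [Finset.sup_empty, Finset.card_empty, pow_zero]
      exact ⟨Nat.card_pos, bot_le, fun _ _ _ => bot_le⟩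
    | insert a s ha ih =>
      intro hs
      have hs' : s ⊆ J := (Finset.subset_insert a s).trans hs
      have haJ : a ∈ J := hs (Finset.mem_insert_self a s)
      rw [Finset.mem_filter, Finset.mem_compl] at haJ
      obtain ⟨i1, i2, i3⟩ := ih hs'
      rw [Finset.sup_insert, Finset.card_insert_of_notMem ha]
      refine ⟨?_, sup_le inf_le_left i2, ?_⟩
      · have hle : s.sup W ≤ W a ⊔ s.sup W := le_sup_right
        have h1 : ¬ W a ⊔ s.sup W ≤ s.sup W := by
          intro h
          exact hWj a haJ.1 ((le_sup_left.trans h).trans (i3 a haJ.1 ha))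
        have h2 : (s.sup W).relIndex (W a ⊔ s.sup W) ≠ 1 := by
          intro h
          rw [Subgroup.relIndex_eq_one] at h
          exact h1 h
        have h3 : (s.sup W).relIndex (W a ⊔ s.sup W) ≠ 0 :=
          Subgroup.index_ne_zero_of_finite
        have h4 : Nat.card (s.sup W : Subgroup V) * (s.sup W).relIndex (W a ⊔ s.sup W)
            = Nat.card (W a ⊔ s.sup W : Subgroup V) := by
          rw [← Subgroup.relIndex_bot_left, ← Subgroup.relIndex_bot_left]
          exact Subgroup.relIndex_mul_relIndex _ _ _ bot_le hle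
        rw [← h4, pow_succ]
        exact Nat.mul_le_mul i1 (by omega)
      · intro i hiI hi
        rw [Finset.mem_insert] at hi
        push Not at hi
        refine sup_le ?_ (i3 i hiI hi.2)
        refine inf_le_right.trans (Finset.inf_le ?_)
        rw [Finset.mem_compl, Finset.mem_insert]
        push Not
        exact ⟨hi.1, hiI⟩
  obtain ⟨p1, p2, p3⟩ := hP J subset_rfl
  -- it meets `U_I` trivially
  have hPU : J.sup W ⊓ I.inf N = ⊥ := by
    rw [eq_bot_iff]
    intro x hx
    obtain ⟨hx1, hx2⟩ := Subgroup.mem_inf.mp hx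
    rw [memInf] at hx2
    rw [Subgroup.mem_bot]
    apply hbot
    intro j
    by_contra hj
    have hjI : j ∉ I := fun h => hj (hx2 j h)
    have hjJ : j ∈ J := by
      by_contra h
      exact hj (p3 j hjI h hx1)
    have hYj : Y ⊔ N j = ⊤ := (Finset.mem_filter.mp hjJ).2
    have hMj := hN j
    have hxY : x ∈ Y := p2 hx1
    -- an element of `Y ⊓ T_j` outside `N j`
    have hcov : W j ⊔ N j = ⊤ := cover hMj (infNormal hN _) hYj (hWj j hjI)
    have h1 : ¬ ∀ y ∈ W j, ⁅x, y⁆ ∈ N j := fun h => hj (mem_of_comm hMj hcov h)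
    push Not at h1
    obtain ⟨y, hy, hz⟩ := h1
    have hzT : ⁅x, y⁆ ∈ ({j}ᶜ : Finset ι).inf N := by
      rw [memInf]
      intro i hi
      rw [Finset.mem_compl, Finset.mem_singleton] at hi
      have hni := (hN i).nor
      rw [commutatorElement_def]
      by_cases hiI : i ∈ I
      · have hxi := hx2 i hiI
        have e : x * y * x⁻¹ * y⁻¹ = x * (y * x⁻¹ * y⁻¹) := by group
        rw [e]
        exact (N i).mul_mem hxi (hni.conj_mem _ ((N i).inv_mem hxi) y)
      · have hyi : y ∈ N i := by
          have h2 := (Subgroup.mem_inf.mp hy).2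
          rw [memInf] at h2
          apply h2
          rw [Finset.mem_compl, Finset.mem_insert]
          push Not
          exact ⟨hi, hiI⟩
        exact (N i).mul_mem (hni.conj_mem _ hyi x) ((N i).inv_mem hyi)
    have hzY : ⁅x, y⁆ ∈ Y := by
      rw [commutatorElement_def]
      exact Y.mul_mem (Y.mul_mem (Y.mul_mem hxY hy.1) (Y.inv_mem hxY)) (Y.inv_mem hy.1)
    set Tj := ({j}ᶜ : Finset ι).inf N with hTj
    have hTjn : Tj.Normal := infNormal hN _
    have hcov2 : (Y ⊓ Tj) ⊔ N j = ⊤ :=
      cover hMj hTjn hYj fun h => hz (h ⟨hzY, hzT⟩)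
    have hle : Tj ≤ Y := by
      intro t ht
      have h2 : t ∈ (Y ⊓ Tj) ⊔ N j := by rw [hcov2]; exact Subgroup.mem_top t
      have := hMj.nor
      rw [← SetLike.mem_coe, Subgroup.mul_normal] at h2
      obtain ⟨a, ha, b, hb, rfl⟩ := h2
      have hb1 : b = 1 := by
        apply hbot
        intro i
        by_cases hij : i = j
        · rw [hij]; exact hb
        · have h4 : b ∈ Tj := by
            have h5 := Tj.mul_mem (Tj.inv_mem ha.2) ht
            have e : a⁻¹ * ((fun x1 x2 => x1 * x2) a b) = b := by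
              show a⁻¹ * (a * b) = b
              group
            rw [e] at h5
            exact h5
          rw [hTj, memInf] at h4
          exact h4 i (by rw [Finset.mem_compl, Finset.mem_singleton]; exact hij)
      show a * b ∈ Y
      rw [hb1, mul_one]
      exact ha.1
    have h6 := hY Tj hTjn hle
    rw [h6, Subgroup.mem_bot] at hzT
    rw [hzT] at hz
    exact hz (Subgroup.one_mem _)
  have b3 : 2 ^ J.card ≤ Nat.card T := by
    rw [hTcard]
    refine p1.trans ?_
    have e1 : (I.inf N).relIndex (J.sup W) = Nat.card (J.sup W : Subgroup V) := by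
      rw [← Subgroup.inf_relIndex_right, inf_comm, hPU, Subgroup.relIndex_bot_left]
    rw [← e1, ← Subgroup.relIndex_top_right (I.inf N)]
    exact Subgroup.relIndex_le_of_le_right le_top Subgroup.index_ne_zero_of_finite
  rw [hcard, hidx]
  have c1 : 2 ^ (I.card + (J.card + B.card)) ≤
      (2 ^ I.card * 2 ^ J.card) * (2 ^ B.card * 2 ^ B.card) := by
    rw [← pow_add, ← pow_add, ← pow_add]
    exact Nat.pow_le_pow_right (by norm_num) (by omega)
  refine c1.trans ?_
  calc (2 ^ I.card * 2 ^ J.card) * (2 ^ B.card * 2 ^ B.card)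
      ≤ (Nat.card T * Nat.card T) * ((Y ⊔ T).index * (Y ⊔ T).index) :=
        Nat.mul_le_mul (Nat.mul_le_mul b1 b3) (Nat.mul_le_mul b2 b2)
    _ = ((Y ⊔ T).index * Nat.card T) ^ 2 := by ring

end Pool.Agent.Helper7.BC
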