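import Pool.Agent.Helper7.BC.Trans

/-!
Normal subgroups of a subdirect product of non-abelian simple groups, and Lemma P relative to the normal core.
-/

namespace Pool.Agent.Helper7.BC

open Subgroup
open scoped commutatorElement

variable {V : Type*} [Group V] {ι : Type*} {N : ι → Subgroup V}

theorem mem_finset_inf (s : Finset ι) (x : V) : x ∈ s.inf N ↔ ∀ i ∈ s, x ∈ N i := by
  classical
  induction s using Finset.induction_on with
  | empty => simp
  | insert a s ha ih =>
    rw [Finset.inf_insert, Subgroup.mem_inf, ih]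
    simp

/-- the part `T_j` is contained in every normal subgroup `K` not inside `N j` -/
theorem part_le [Fintype ι] [DecidableEq ι] (hN : ∀ i, MN (N i)) (hinj : Function.Injective N)
    (hbot : ∀ x : V, (∀ i, x ∈ N i) → x = 1) {K : Subgroup V} (hK : K.Normal) {j : ι}
    (hj : ¬ K ≤ N j) : ({j}ᶜ : Finset ι).inf N ≤ K := by
  set T := ({j}ᶜ : Finset ι).inf N with hT
  have hTn : T.Normal := infNormal hN _
  have hTj : ¬ T ≤ N j := inf_not_le hN hinj _ (by simp)
  have h1 : ¬ K ⊓ T ≤ N j := by
    intro h
    exact (hN j).prime hK hTn hj hTj ((Subgroup.commutator_le_inf _ _).trans h)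
  have hcov : (K ⊓ T) ⊔ N j = ⊤ := cover (hN j) hTn ((hN j).sup hK hj) h1
  intro t ht
  have h2 : t ∈ (K ⊓ T) ⊔ N j := by rw [hcov]; exact Subgroup.mem_top t
  have := (hN j).nor
  rw [← SetLike.mem_coe, Subgroup.mul_normal] at h2
  obtain ⟨a, ha, b, hb, hab⟩ := h2
  obtain ⟨ha1, ha2⟩ := Subgroup.mem_inf.mp ha
  have hab' : a * b = t := hab
  have hb1 : b = 1 := by
    apply hbot
    intro i
    by_cases hij : i = j
    · rw [hij]; exact hb
    · have h4 : b ∈ T := by
        have h5 := T.mul_mem (T.inv_mem ha2) ht
        rw [← hab'] at h5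
        have e : a⁻¹ * (a * b) = b := by group
        rw [e] at h5
        exact h5
      rw [hT, mem_finset_inf] at h4
      exact h4 i (by rw [Finset.mem_compl, Finset.mem_singleton]; exact hij)
  rw [← hab', hb1, mul_one]
  exact ha1

/-- a normal subgroup is the intersection of the `N i` above it -/
theorem normal_eq [Fintype ι] (hN : ∀ i, MN (N i)) (hinj : Function.Injective N)
    (hbot : ∀ x : V, (∀ i, x ∈ N i) → x = 1) {K : Subgroup V} (hK : K.Normal) {x : V}
    (hx : ∀ i, K ≤ N i → x ∈ N i) : x ∈ K := by
  classical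
  -- induction on the set of indices where `x` may be non-trivial
  have key : ∀ s : Finset ι, (∀ j ∈ s, ¬ K ≤ N j) → ∀ y : V, (∀ i, i ∉ s → y ∈ N i) → y ∈ K := by
    intro s
    induction s using Finset.induction_on with
    | empty =>
      intro _ y hy
      have : y = 1 := hbot y fun i => hy i (Finset.notMem_empty i)
      rw [this]
      exact K.one_mem
    | insert a s ha ih =>
      intro hs y hy
      have ha' : ¬ K ≤ N a := hs a (Finset.mem_insert_self a s)
      set T := ({a}ᶜ : Finset ι).inf N with hT
      have hTn : T.Normal := infNormal hN _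
      have hTa : T ⊔ N a = ⊤ := inf_sup hN hinj _ (by simp)
      have h2 : y ∈ T ⊔ N a := by rw [hTa]; exact Subgroup.mem_top y
      have := (hN a).nor
      rw [← SetLike.mem_coe, Subgroup.mul_normal] at h2
      obtain ⟨t, ht, n, hn, htn⟩ := h2
      have htn' : t * n = y := htn
      have hTK : T ≤ K := part_le hN hinj hbot hK ha'
      have hnK : n ∈ K := by
        apply ih (fun j hj => hs j (Finset.mem_insert_of_mem hj))
        intro i hi
        by_cases hia : i = a
        · rw [hia]; exact hn
        · have h3 : t ∈ N i := by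
            have h4 : t ∈ T := ht
            rw [hT, mem_finset_inf] at h4
            exact h4 i (by rw [Finset.mem_compl, Finset.mem_singleton]; exact hia)
          have h5 : y ∈ N i := hy i (by
            rw [Finset.mem_insert]; push Not; exact ⟨hia, hi⟩)
          have e : n = t⁻¹ * y := by rw [← htn']; group
          rw [e]
          exact (N i).mul_mem ((N i).inv_mem h3) h5
      rw [← htn']
      exact K.mul_mem (hTK ht) hnK
  apply key (Finset.univ.filter fun i => ¬ K ≤ N i)
    (fun j hj => (Finset.mem_filter.mp hj).2)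
  intro i hi
  rw [Finset.mem_filter] at hi
  push Not at hi
  exact hx i (hi (Finset.mem_univ i))

/-- transfer of `MN` to a quotient -/
theorem MN.map_mk {M K : Subgroup V} (h : MN M) [K.Normal] (hK : K ≤ M) :
    MN (M.map (QuotientGroup.mk' K)) := by
  have hs := QuotientGroup.mk'_surjective K
  have := h.nor
  have hcm : (M.map (QuotientGroup.mk' K)).comap (QuotientGroup.mk' K) = M := by
    rw [Subgroup.comap_map_eq, QuotientGroup.ker_mk']
    exact sup_eq_left.mpr hK
  refine ⟨Subgroup.Normal.map h.nor _ hs, ?_, ?_, ?_⟩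
  · intro h1
    apply h.ne
    rw [← hcm, h1, Subgroup.comap_top]
  · intro L hL hML
    have hL' : (L.comap (QuotientGroup.mk' K)).Normal := hL.comap _
    have h1 : M ≤ L.comap (QuotientGroup.mk' K) := by
      rw [← hcm]
      exact Subgroup.comap_mono hML
    rcases h.max _ hL' h1 with h2 | h2
    · left
      rw [← h2, Subgroup.map_comap_eq_self_of_surjective hs]
    · right
      have h3 : (L.comap (QuotientGroup.mk' K)).map (QuotientGroup.mk' K) = L :=
        Subgroup.map_comap_eq_self_of_surjective hs L
      rw [← h3, h2, Subgroup.map_top_of_surjective _ hs]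
  · intro h1
    apply h.na
    have h2 : (commutator V).map (QuotientGroup.mk' K) ≤ M.map (QuotientGroup.mk' K) := by
      refine le_trans ?_ h1
      rw [_root_.commutator_def, _root_.commutator_def, Subgroup.map_commutator]
      exact Subgroup.commutator_mono le_top le_top
    rw [Subgroup.map_le_iff_le_comap, hcm] at h2
    exact h2

/-- Lemma P relative to the normal core, with the bound for the quotient by the core -/
theorem lemP_core [Finite V] [Fintype ι] (hN : ∀ i, MN (N i)) (hinj : Function.Injective N)
    (hbot : ∀ x : V, (∀ i, x ∈ N i) → x = 1) (Y : Subgroup V) (B : ℕ)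
    (hB : ∀ i, (N i).index ≤ B) :
    ∃ m : ℕ, 2 ^ m ≤ Y.index ^ 2 ∧ Y.normalCore.index ≤ B ^ m := by
  classical
  set K := Y.normalCore with hKdef
  have hKn : K.Normal := Subgroup.normalCore_normal Y
  let κ := {i : ι // K ≤ N i}
  let N' : κ → Subgroup (V ⧸ K) := fun i => (N i.1).map (QuotientGroup.mk' K)
  have hN' : ∀ i, MN (N' i) := fun i => (hN i.1).map_mk i.2
  have hcm : ∀ i : κ, (N' i).comap (QuotientGroup.mk' K) = N i.1 := by
    intro i
    show ((N i.1).map (QuotientGroup.mk' K)).comap (QuotientGroup.mk' K) = N i.1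
    rw [Subgroup.comap_map_eq, QuotientGroup.ker_mk']
    exact sup_eq_left.mpr i.2
  have hinj' : Function.Injective N' := by
    intro i j h
    apply Subtype.ext
    apply hinj
    rw [← hcm i, ← hcm j, h]
  have hbot' : ∀ x : V ⧸ K, (∀ i, x ∈ N' i) → x = 1 := by
    intro x hx
    obtain ⟨y, rfl⟩ := QuotientGroup.mk'_surjective K x
    rw [QuotientGroup.mk'_apply, QuotientGroup.eq_one_iff]
    apply normal_eq hN hinj hbot hKn
    intro i hi
    have h1 := hx ⟨i, hi⟩
    rw [← Subgroup.mem_comap, hcm] at h1
    exact h1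
  have hYK : K ≤ Y := Subgroup.normalCore_le Y
  have hYm : (Y.map (QuotientGroup.mk' K)).comap (QuotientGroup.mk' K) = Y := by
    rw [Subgroup.comap_map_eq, QuotientGroup.ker_mk']
    exact sup_eq_left.mpr hYK
  have hs := QuotientGroup.mk'_surjective K
  have hY' : ∀ L : Subgroup (V ⧸ K), L.Normal → L ≤ Y.map (QuotientGroup.mk' K) → L = ⊥ := by
    intro L hL hLY
    have h1 : L.comap (QuotientGroup.mk' K) ≤ Y := by
      rw [← hYm]
      exact Subgroup.comap_mono hLY
    have h2 : (L.comap (QuotientGroup.mk' K)).Normal := hL.comap _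
    have h3 : L.comap (QuotientGroup.mk' K) ≤ K := Subgroup.normal_le_normalCore.mpr h1
    rw [← Subgroup.map_comap_eq_self_of_surjective hs L, Subgroup.map_eq_bot_iff,
      QuotientGroup.ker_mk']
    exact h3
  refine ⟨Fintype.card κ, ?_, ?_⟩
  · have h1 := lemP hN' hinj' hbot' (Y.map (QuotientGroup.mk' K)) hY'
    rwa [Subgroup.index_map, QuotientGroup.ker_mk', sup_eq_left.mpr hYK,
      MonoidHom.range_eq_top.mpr hs, Subgroup.index_top, mul_one] at h1
  · have h1 : K = (Finset.univ.filter fun i => K ≤ N i).inf N := by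
      apply le_antisymm
      · exact Finset.le_inf fun i hi => (Finset.mem_filter.mp hi).2
      · intro x hx
        rw [mem_finset_inf] at hx
        exact normal_eq hN hinj hbot hKn fun i hi =>
          hx i (Finset.mem_filter.mpr ⟨Finset.mem_univ i, hi⟩)
    have h2 : Fintype.card κ = (Finset.univ.filter fun i => K ≤ N i).card := by
      rw [Fintype.card_subtype]
    rw [h2]
    calc K.index = ((Finset.univ.filter fun i => K ≤ N i).inf N).index := by rw [← h1]
      _ = ∏ i ∈ Finset.univ.filter fun i => K ≤ N i, (N i).index := index_inf hN hinj _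
      _ ≤ ∏ _i ∈ Finset.univ.filter fun i => K ≤ N i, B :=
          Finset.prod_le_prod' fun i _ => hB i
      _ = B ^ (Finset.univ.filter fun i => K ≤ N i).card := by rw [Finset.prod_const]

end Pool.Agent.Helper7.BC
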