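import Pool.Agent.Helper7.BC.Norm

/-!
Quotients of groups which are subdirect products of finitely many groups of order at most `j`:
closed under subgroups, and a simple non-abelian quotient of order exactly `j` splits off.
Words: the laws of all groups of order at most `j` in `n` letters.
-/

namespace Pool.Agent.Helper7.BC

open Subgroup
open scoped commutatorElement

/-- `H` is a quotient of a group with a finite separating family of normal subgroups of index at most `j`. -/
def SQ (j : ℕ) (H : Type) [Group H] : Prop :=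
  ∃ (D : Type) (_ : Group D) (ι : Type) (_ : Fintype ι) (P : ι → Subgroup D),
    (∀ i, (P i).Normal ∧ (P i).index ≠ 0 ∧ (P i).index ≤ j) ∧
    (∀ x : D, (∀ i, x ∈ P i) → x = 1) ∧ ∃ f : D →* H, Function.Surjective f

theorem SQ.subgroup {j : ℕ} {H : Type} [Group H] (h : SQ j H) (J : Subgroup H) : SQ j J := by
  obtain ⟨D, _, ι, _, P, hP, hbot, f, hf⟩ := h
  refine ⟨J.comap f, inferInstance, ι, inferInstance, fun i => (P i).subgroupOf (J.comap f),
    ?_, ?_, ?_⟩
  · intro i
    have := (hP i).1
    refine ⟨inferInstance, ?_, ?_⟩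
    · intro h0
      have h1 : (P i).relIndex (J.comap f) ∣ (P i).index := Subgroup.relIndex_dvd_index_of_normal _ _
      have h2 : (P i).relIndex (J.comap f) = 0 := h0
      rw [h2, zero_dvd_iff] at h1
      exact (hP i).2.1 h1
    · have h1 : (P i).relIndex (J.comap f) ∣ (P i).index := Subgroup.relIndex_dvd_index_of_normal _ _
      exact (Nat.le_of_dvd (Nat.pos_of_ne_zero (hP i).2.1) h1).trans (hP i).2.2
  · intro x hx
    apply Subtype.ext
    apply hbot
    intro i
    exact hx i
  · refine ⟨(f.comp (J.comap f).subtype).codRestrict J (fun x => x.2), ?_⟩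
    rintro ⟨y, hy⟩
    obtain ⟨x, rfl⟩ := hf y
    exact ⟨⟨x, hy⟩, rfl⟩

theorem SQ.of_surjective {j : ℕ} {H H' : Type} [Group H] [Group H'] (h : SQ j H) (g : H →* H')
    (hg : Function.Surjective g) : SQ j H' := by
  obtain ⟨D, i1, ι, i2, P, hP, hbot, f, hf⟩ := h
  exact ⟨D, i1, ι, i2, P, hP, hbot, g.comp f, hg.comp hf⟩

theorem SQ.of_le {j : ℕ} {G : Type} [Group G] {H J : Subgroup G} (h : SQ j H) (hJ : J ≤ H) :
    SQ j J := by
  have h1 := h.subgroup (J.subgroupOf H)
  exact h1.of_surjective (Subgroup.subgroupOfEquivOfLe hJ).toMonoidHom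
    (Subgroup.subgroupOfEquivOfLe hJ).surjective

theorem finset_inf_normal {D : Type*} [Group D] {ι : Type*} (P : ι → Subgroup D)
    (hP : ∀ i, (P i).Normal) (s : Finset ι) : (s.inf P).Normal := by
  classical
  induction s using Finset.induction_on with
  | empty => rw [Finset.inf_empty]; infer_instance
  | insert b s _ ih =>
    rw [Finset.inf_insert]
    have := ih
    have := hP b
    infer_instance

/-- Prime property for finitely many normal subgroups. -/
theorem MN.exists_le {D : Type} [Group D] {M : Subgroup D} (h : MN M) {ι : Type}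
    (P : ι → Subgroup D) (s : Finset ι) (hP : ∀ i, (P i).Normal) (hle : s.inf P ≤ M) :
    ∃ i ∈ s, P i ≤ M := by
  classical
  induction s using Finset.induction_on with
  | empty =>
    rw [Finset.inf_empty] at hle
    exact absurd (top_le_iff.mp hle) h.ne
  | insert a s _ ih =>
    by_cases ha : P a ≤ M
    · exact ⟨a, Finset.mem_insert_self a s, ha⟩
    · by_cases hs : s.inf P ≤ M
      · obtain ⟨i, hi, hi2⟩ := ih hs
        exact ⟨i, Finset.mem_insert_of_mem hi, hi2⟩
      · exfalso
        rw [Finset.inf_insert] at hle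
        have hn : (s.inf P).Normal := finset_inf_normal P hP s
        have := hP a
        exact h.prime (hP a) hn ha hs ((Subgroup.commutator_le_inf _ _).trans hle)

/-- The splitting lemma: a non-abelian simple quotient of order `j` splits off. -/
theorem SQ.split {j : ℕ} {H : Type} [Group H] (h : SQ j H) {M : Subgroup H} (hM : MN M)
    (hidx : M.index = j) :
    ∃ E : Subgroup H, E.Normal ∧ E ⊓ M = ⊥ ∧ E ⊔ M = ⊤ := by
  classical
  obtain ⟨D, _, ι, _, P, hP, hbot, f, hf⟩ := h
  -- the preimage of `M`
  set Q := M.comap f with hQ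
  have hMn := hM.nor
  have hQn : Q.Normal := hMn.comap f
  have hQidx : Q.index = j := by
    rw [hQ, Subgroup.index_comap_of_surjective _ hf, hidx]
  have hmapQ : Q.map f = M := Subgroup.map_comap_eq_self_of_surjective hf M
  have hQMN : MN Q := by
    refine ⟨hQn, ?_, ?_, ?_⟩
    · intro h1
      apply hM.ne
      rw [← hmapQ, h1, Subgroup.map_top_of_surjective _ hf]
    · intro K hK hQK
      have hkerQ : f.ker ≤ Q := by
        intro x hx
        rw [hQ, Subgroup.mem_comap, hx]
        exact M.one_mem
      have h2 : (K.map f).comap f = K := by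
        rw [Subgroup.comap_map_eq]
        exact sup_eq_left.mpr (hkerQ.trans hQK)
      rcases hM.max (K.map f) (hK.map f hf) (by rw [← hmapQ]; exact Subgroup.map_mono hQK) with
        h3 | h3
      · left; rw [← h2, h3]
      · right; rw [← h2, h3, Subgroup.comap_top]
    · intro h1
      apply hM.na
      have h2 : (commutator D).map f ≤ Q.map f := Subgroup.map_mono h1
      rw [hmapQ] at h2
      have h3 : (commutator D).map f = commutator H := by
        rw [_root_.commutator_def, _root_.commutator_def, Subgroup.map_commutator,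
          Subgroup.map_top_of_surjective _ hf]
      rwa [h3] at h2
  -- members inside `Q` are equal to `Q`
  have heq : ∀ i, P i ≤ Q → P i = Q := by
    intro i hi
    have h1 : (P i).relIndex Q * Q.index = (P i).index := Subgroup.relIndex_mul_index hi
    have h2 := (hP i).2.2
    have h3 := (hP i).2.1
    rw [hQidx] at h1
    have h4 : (P i).relIndex Q ≠ 0 := by
      intro h0
      rw [h0, zero_mul] at h1
      exact h3 h1.symm
    have h5 : (P i).relIndex Q = 1 := by
      by_contra h6
      have h7 : 2 ≤ (P i).relIndex Q := by omega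
      have h8 := Nat.mul_le_mul_right j h7
      rw [h1] at h8
      omega
    rw [Subgroup.relIndex_eq_one] at h5
    exact le_antisymm hi h5
  -- the complement
  let s : Finset ι := Finset.univ.filter fun i => ¬ P i ≤ Q
  have hPn : ∀ i, (P i).Normal := fun i => (hP i).1
  have hsn : ∀ s : Finset ι, (s.inf P).Normal := finset_inf_normal P hPn
  have hEQ : ¬ s.inf P ≤ Q := by
    intro h1
    obtain ⟨i, hi, hi2⟩ := hQMN.exists_le P s hPn h1
    exact (Finset.mem_filter.mp hi).2 hi2
  have hEbot : ∀ x ∈ s.inf P, x ∈ Q → x = 1 := by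
    intro x hx hxQ
    apply hbot
    intro i
    by_cases hi : P i ≤ Q
    · rw [heq i hi]; exact hxQ
    · rw [mem_finset_inf] at hx
      exact hx i (Finset.mem_filter.mpr ⟨Finset.mem_univ i, hi⟩)
  refine ⟨(s.inf P).map f, (hsn s).map f hf, ?_, ?_⟩
  · rw [eq_bot_iff]
    rintro _ ⟨⟨x, hx, rfl⟩, hx2⟩
    have : x = 1 := hEbot x hx hx2
    rw [this, map_one]
    exact Subgroup.one_mem _
  · have h1 := hQMN.sup (hsn s) hEQ
    rw [← hmapQ, ← Subgroup.map_sup, h1, Subgroup.map_top_of_surjective _ hf]

end Pool.Agent.Helper7.BC
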