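import Pool.Agent.Helper94.BC.Defs

/-!
Short replacements: the conjugating elements in a word which moves a point can be chosen short.
-/

set_option autoImplicit false

namespace Pool.Agent.Helper7.BC

open Pool.Agent.Helper94.BC

/-- Every point of an orbit is reached by a short element. -/
theorem orbit_ball {G Y : Type} [Group G] [MulAction G Y] [Finite Y] (X : Set G)
    (hX : Subgroup.closure X = ⊤) (y : Y) (g : G) :
    ∃ h ∈ Bl X (Nat.card Y), h • y = g • y := by
  classical
  let S : ℕ → Set Y := fun r => {z | ∃ h ∈ Bl X r, h • y = z}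
  have hmono : ∀ r, S r ⊆ S (r + 1) := by
    rintro r z ⟨h, hh, rfl⟩
    exact ⟨h, bl_mono X (Nat.le_succ r) hh, rfl⟩
  have hstep : ∀ r, ∀ z ∈ S r, ∀ x : G, x ∈ Bl X 1 → x • z ∈ S (r + 1) := by
    rintro r _ ⟨h, hh, rfl⟩ x hx
    refine ⟨x * h, ?_, mul_smul _ _ _⟩
    have := mul_mem_bl hx hh
    rwa [Nat.add_comm] at this
  have hy0 : ∀ r, y ∈ S r := fun r => ⟨1, one_mem_bl X r, one_smul _ _⟩
  have key : ∀ r, (∀ z ∈ S r, ∀ x ∈ Bl X 1, x • z ∈ S r) ∨ r + 1 ≤ Nat.card (S r) := by
    intro r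
    induction r with
    | zero =>
      right
      have : Nonempty (S 0) := ⟨⟨y, hy0 0⟩⟩
      exact Nat.succ_le_of_lt Nat.card_pos
    | succ r ih =>
      rcases ih with ih | ih
      · left
        have hle : S (r + 1) ⊆ S r := by
          rintro z ⟨h, hh, rfl⟩
          rw [Nat.add_comm, bl_add] at hh
          obtain ⟨x, hx, h', hh', rfl⟩ := hh
          show (x * h') • y ∈ S r
          rw [mul_smul]
          exact ih _ ⟨h', hh', rfl⟩ x hx
        intro z hz x hx
        exact hmono r (ih z (hle hz) x hx)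
      · by_cases hcl : ∀ z ∈ S r, ∀ x ∈ Bl X 1, x • z ∈ S r
        · left
          have hle : S (r + 1) ⊆ S r := by
            rintro z ⟨h, hh, rfl⟩
            rw [Nat.add_comm, bl_add] at hh
            obtain ⟨x, hx, h', hh', rfl⟩ := hh
            show (x * h') • y ∈ S r
            rw [mul_smul]
            exact hcl _ ⟨h', hh', rfl⟩ x hx
          intro z hz x hx
          exact hmono r (hcl z (hle hz) x hx)
        · right
          push Not at hcl
          obtain ⟨z, hz, x, hx, hxz⟩ := hcl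
          have h1 : insert (x • z) (S r) ⊆ S (r + 1) := by
            rw [Set.insert_subset_iff]
            exact ⟨hstep r z hz x hx, hmono r⟩
          have h2 : Set.ncard (insert (x • z) (S r)) = Set.ncard (S r) + 1 :=
            Set.ncard_insert_of_notMem hxz (Set.toFinite _)
          have h3 : Set.ncard (insert (x • z) (S r)) ≤ Set.ncard (S (r + 1)) :=
            Set.ncard_le_ncard h1 (Set.toFinite _)
          rw [Nat.card_coe_set_eq] at ih ⊢
          omega
  have hcl : ∀ z ∈ S (Nat.card Y), ∀ x ∈ Bl X 1, x • z ∈ S (Nat.card Y) := by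
    rcases key (Nat.card Y) with h | h
    · exact h
    · exfalso
      have h1 : Nat.card (S (Nat.card Y)) ≤ Nat.card Y :=
        Nat.card_le_card_of_injective (Subtype.val) Subtype.val_injective
      omega
  have hall : ∀ g ∈ Subgroup.closure X, (∀ z ∈ S (Nat.card Y), g • z ∈ S (Nat.card Y)) ∧
      (∀ z ∈ S (Nat.card Y), g⁻¹ • z ∈ S (Nat.card Y)) := by
    intro g hg
    induction hg using Subgroup.closure_induction with
    | mem x hx =>
      have h1 : x ∈ Bl X 1 := subset_bl_one X hx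
      exact ⟨fun z hz => hcl z hz x h1, fun z hz => hcl z hz _ (inv_mem_bl h1)⟩
    | one =>
      refine ⟨fun z hz => by rwa [one_smul], fun z hz => by rwa [inv_one, one_smul]⟩
    | mul a b _ _ ha hb =>
      refine ⟨fun z hz => ?_, fun z hz => ?_⟩
      · rw [mul_smul]
        exact ha.1 _ (hb.1 _ hz)
      · rw [mul_inv_rev, mul_smul]
        exact hb.2 _ (ha.2 _ hz)
    | inv a _ ha =>
      refine ⟨ha.2, fun z hz => ?_⟩
      rw [inv_inv]
      exact ha.1 z hz
  have h1 := (hall g (by rw [hX]; exact Subgroup.mem_top g)).1 y (hy0 _)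
  exact h1

/-- A conjugator can be replaced by a short one which agrees with it on a finite set. -/
theorem short_agree {G Ω : Type} [Group G] [MulAction G Ω] [Finite Ω] (X : Set G)
    (hX : Subgroup.closure X = ⊤) (F : Finset Ω) (g : G) :
    ∃ g' ∈ Bl X (Nat.card Ω ^ F.card), ∀ p ∈ F, g'⁻¹ • p = g⁻¹ • p := by
  classical
  obtain ⟨h, hh, hy⟩ := orbit_ball (Y := F → Ω) X hX (fun p => p.1) g⁻¹
  have e : Nat.card (F → Ω) = Nat.card Ω ^ F.card := by
    rw [Nat.card_fun, Nat.card_eq_fintype_card (α := F), Fintype.card_coe]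
  rw [e] at hh
  refine ⟨h⁻¹, inv_mem_bl hh, fun p hp => ?_⟩
  rw [inv_inv]
  exact congrFun hy ⟨p, hp⟩

/-- The value of a list of letters. -/
def ev {G : Type} [Group G] {n : ℕ} (c : Fin n → G) (L : List (Fin n × Bool)) : G :=
  (L.map fun a => cond a.2 (c a.1) (c a.1)⁻¹).prod

theorem ev_nil {G : Type} [Group G] {n : ℕ} (c : Fin n → G) : ev c [] = 1 := rfl

theorem ev_cons {G : Type} [Group G] {n : ℕ} (c : Fin n → G) (a : Fin n × Bool)
    (L : List (Fin n × Bool)) : ev c (a :: L) = cond a.2 (c a.1) (c a.1)⁻¹ * ev c L := by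
  simp [ev]

theorem ev_eq_lift {G : Type} [Group G] {n : ℕ} (c : Fin n → G) (w : FreeGroup (Fin n)) :
    FreeGroup.lift c w = ev c w.toWord := by
  conv_lhs => rw [← FreeGroup.mk_toWord (x := w)]
  rw [FreeGroup.lift_mk]
  rfl

/-- The path of a point under a word in conjugates of `x`. -/
theorem path {G Ω : Type} [Group G] [MulAction G Ω] {n : ℕ} (x : G) (g : Fin n → G) (o : Ω)
    (L : List (Fin n × Bool)) : ∃ F : Finset Ω, F.card ≤ L.length + 1 ∧
      ev (fun i => g i * x * (g i)⁻¹) L • o ∈ F ∧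
      ∀ g' : Fin n → G, (∀ i, ∀ p ∈ F, (g' i)⁻¹ • p = (g i)⁻¹ • p) →
        ev (fun i => g' i * x * (g' i)⁻¹) L • o = ev (fun i => g i * x * (g i)⁻¹) L • o := by
  classical
  induction L with
  | nil => exact ⟨{o}, by simp, by simp [ev_nil], fun g' _ => rfl⟩
  | cons a L ih =>
    obtain ⟨F, h1, h2, h3⟩ := ih
    refine ⟨insert (ev (fun i => g i * x * (g i)⁻¹) (a :: L) • o) F, ?_,
      Finset.mem_insert_self _ _, ?_⟩
    · rw [List.length_cons]
      exact (Finset.card_insert_le _ _).trans (Nat.succ_le_succ h1)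
    · intro g' hg'
      have h4 := h3 g' fun i p hp => hg' i p (Finset.mem_insert_of_mem hp)
      rw [ev_cons, mul_smul, h4]
      rw [ev_cons, mul_smul] at hg'
      rw [ev_cons, mul_smul]
      set p := ev (fun i => g i * x * (g i)⁻¹) L • o with hp
      -- one letter
      have key : ∀ x' : G, (∀ i, (g' i)⁻¹ • p = (g i)⁻¹ • p) →
          (∀ i, (g' i)⁻¹ • ((g a.1 * x' * (g a.1)⁻¹) • p) =
            (g i)⁻¹ • ((g a.1 * x' * (g a.1)⁻¹) • p)) →
          (g' a.1 * x' * (g' a.1)⁻¹) • p = (g a.1 * x' * (g a.1)⁻¹) • p := by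
        intro x' k1 k2
        have e1 : (g a.1)⁻¹ • ((g a.1 * x' * (g a.1)⁻¹) • p) = x' • (g a.1)⁻¹ • p := by
          calc (g a.1)⁻¹ • ((g a.1 * x' * (g a.1)⁻¹) • p)
              = ((g a.1)⁻¹ * (g a.1 * x' * (g a.1)⁻¹)) • p := (mul_smul _ _ _).symm
            _ = (x' * (g a.1)⁻¹) • p := by
                have e0 : (g a.1)⁻¹ * (g a.1 * x' * (g a.1)⁻¹) = x' * (g a.1)⁻¹ := by group
                rw [e0]
            _ = x' • (g a.1)⁻¹ • p := mul_smul _ _ _
        have e2 := k2 a.1
        rw [e1] at e2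
        rw [mul_smul, mul_smul, k1 a.1, ← e2, smul_inv_smul]
      have hpF : p ∈ F := h2
      have k1 : ∀ i, (g' i)⁻¹ • p = (g i)⁻¹ • p := fun i =>
        hg' i p (Finset.mem_insert_of_mem hpF)
      have hinv : ∀ c : Fin n → G, ∀ i, (c i * x * (c i)⁻¹)⁻¹ = c i * x⁻¹ * (c i)⁻¹ := by
        intro c i
        group
      cases ha : a.2 with
      | true =>
        rw [ha] at hg'
        simp only [cond_true] at hg' ⊢
        exact key x k1 fun i => hg' i _ (Finset.mem_insert_self _ _)
      | false =>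
        rw [ha] at hg'
        simp only [cond_false] at hg' ⊢
        rw [hinv g'] 
        rw [hinv g] at hg' ⊢
        exact key x⁻¹ k1 fun i => hg' i _ (Finset.mem_insert_self _ _)

/-- Short replacement. -/
theorem short_repl {G Ω : Type} [Group G] [MulAction G Ω] [Finite Ω] (X : Set G)
    (hX : Subgroup.closure X = ⊤) {n : ℕ} (w : FreeGroup (Fin n)) (x : G) (g : Fin n → G)
    (o : Ω) (hmove : FreeGroup.lift (fun i => g i * x * (g i)⁻¹) w • o ≠ o) :
    ∃ g' : Fin n → G, (∀ i, g' i ∈ Bl X (Nat.card Ω ^ (w.norm + 1))) ∧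
      FreeGroup.lift (fun i => g' i * x * (g' i)⁻¹) w • o ≠ o := by
  classical
  obtain ⟨F, h1, _, h3⟩ := path x g o w.toWord
  have hpos : 0 < Nat.card Ω := by
    have : Nonempty Ω := ⟨o⟩
    exact Nat.card_pos
  choose g' hg1 hg2 using fun i => short_agree X hX F (g i)
  refine ⟨g', fun i => bl_mono X (Nat.pow_le_pow_right hpos h1) (hg1 i), ?_⟩
  rw [ev_eq_lift, h3 g' fun i p hp => hg2 i p hp, ← ev_eq_lift]
  exact hmove

/-- The value of a word in short elements is short. -/
theorem ev_mem_bl {G : Type} [Group G] (X : Set G) {n : ℕ} (c : Fin n → G) (R : ℕ)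
    (hc : ∀ i, c i ∈ Bl X R) (w : FreeGroup (Fin n)) :
    FreeGroup.lift c w ∈ Bl X (R * w.norm) := by
  rw [ev_eq_lift]
  have key : ∀ L : List (Fin n × Bool), ev c L ∈ Bl X (R * L.length) := by
    intro L
    induction L with
    | nil => rw [ev_nil]; exact one_mem_bl X _
    | cons a L ih =>
      rw [ev_cons, List.length_cons]
      have h1 : cond a.2 (c a.1) (c a.1)⁻¹ ∈ Bl X R := by
        cases a.2
        · exact inv_mem_bl (hc _)
        · exact hc _
      have h2 := mul_mem_bl h1 ih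
      exact bl_mono X (by rw [Nat.mul_succ]; omega) h2
  exact key _

end Pool.Agent.Helper7.BC
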