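import Pool.Agent.Helper7.BC.LemP

/-!
Transitive permutation groups with a transitive normal subgroup: the format free part.
-/

namespace Pool.Agent.Helper7.BC

open Subgroup
open scoped commutatorElement

/-- a finite group is generated by `log2 |G|` elements -/
theorem exists_small_gens (G : Type*) [Group G] [Finite G] :
    ∃ S : Finset G, S.card ≤ Nat.log 2 (Nat.card G) ∧ Subgroup.closure (S : Set G) = ⊤ := by
  classical
  have key : ∀ n : ℕ, ∃ S : Finset G, S.card ≤ n ∧
      (Subgroup.closure (S : Set G) = ⊤ ∨ 2 ^ n ≤ Nat.card (Subgroup.closure (S : Set G))) := by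
    intro n
    induction n with
    | zero => exact ⟨∅, le_rfl, Or.inr (by rw [pow_zero]; exact Nat.card_pos)⟩
    | succ n ih =>
      obtain ⟨S, h1, h2⟩ := ih
      rcases h2 with h2 | h2
      · exact ⟨S, h1.trans (Nat.le_succ n), Or.inl h2⟩
      · by_cases htop : Subgroup.closure (S : Set G) = ⊤
        · exact ⟨S, h1.trans (Nat.le_succ n), Or.inl htop⟩
        · have h3 : ∃ g : G, g ∉ Subgroup.closure (S : Set G) := by
            by_contra h
            push Not at h
            exact htop ((Subgroup.eq_top_iff' _).mpr h)
          obtain ⟨g, hg⟩ := h3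
          refine ⟨insert g S, (Finset.card_insert_le g S).trans (Nat.succ_le_succ h1), Or.inr ?_⟩
          have hle : Subgroup.closure (S : Set G) ≤
              Subgroup.closure ((insert g S : Finset G) : Set G) := by
            apply Subgroup.closure_mono
            intro x hx
            exact Finset.mem_insert_of_mem hx
          have h4 : (Subgroup.closure (S : Set G)).relIndex
              (Subgroup.closure ((insert g S : Finset G) : Set G)) ≠ 1 := by
            intro h
            rw [Subgroup.relIndex_eq_one] at h
            exact hg (h (Subgroup.subset_closure (Finset.mem_insert_self g S)))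
          have h5 : (Subgroup.closure (S : Set G)).relIndex
              (Subgroup.closure ((insert g S : Finset G) : Set G)) ≠ 0 :=
            Subgroup.index_ne_zero_of_finite
          have h6 : Nat.card (Subgroup.closure (S : Set G)) *
              (Subgroup.closure (S : Set G)).relIndex
                (Subgroup.closure ((insert g S : Finset G) : Set G))
              = Nat.card (Subgroup.closure ((insert g S : Finset G) : Set G)) := by
            rw [← Subgroup.relIndex_bot_left, ← Subgroup.relIndex_bot_left]
            exact Subgroup.relIndex_mul_relIndex _ _ _ bot_le hle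
          rw [← h6, pow_succ]
          exact Nat.mul_le_mul h2 (by omega)
  obtain ⟨S, h1, h2⟩ := key (Nat.log 2 (Nat.card G))
  refine ⟨S, h1, ?_⟩
  rcases h2 with h2 | h2
  · exact h2
  · rw [← Subgroup.index_eq_one]
    have h3 : Nat.card (Subgroup.closure (S : Set G)) * (Subgroup.closure (S : Set G)).index
        = Nat.card G := Subgroup.card_mul_index _
    have h4 : Nat.card G < 2 ^ (Nat.log 2 (Nat.card G) + 1) :=
      Nat.lt_pow_succ_log_self (by norm_num) _
    have h5 : (Subgroup.closure (S : Set G)).index ≠ 0 := Subgroup.index_ne_zero_of_finite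
    by_contra h
    have h6 : 2 ≤ (Subgroup.closure (S : Set G)).index := by omega
    have h7 := Nat.mul_le_mul h2 h6
    rw [h3, ← pow_succ] at h7
    omega

/-- the order of the automorphism group -/
theorem card_mulAut_le (G : Type*) [Group G] [Finite G] :
    Nat.card (MulAut G) ≤ Nat.card G ^ Nat.log 2 (Nat.card G) := by
  classical
  obtain ⟨S, h1, h2⟩ := exists_small_gens G
  have hinj : Function.Injective (fun (f : MulAut G) (s : S) => f s.1) := by
    intro f g h
    have h3 : f.toMonoidHom = g.toMonoidHom := by
      apply MonoidHom.eq_of_eqOn_dense h2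
      intro x hx
      exact congrFun h ⟨x, hx⟩
    ext x
    exact DFunLike.congr_fun h3 x
  have h4 := Nat.card_le_card_of_injective _ hinj
  rw [Nat.card_fun, Nat.card_eq_fintype_card (α := S), Fintype.card_coe] at h4
  exact h4.trans (Nat.pow_le_pow_right Nat.card_pos h1)

/-- (4a): a faithful permutation group with a transitive normal subgroup -/
theorem card_le_of_normal_transitive {P X : Type*} [Group P] [Finite P] [MulAction P X]
    [Finite X] (hf : ∀ g : P, (∀ x : X, g • x = x) → g = 1) (V : Subgroup P) [V.Normal]
    (x₀ : X) (hV : ∀ y : X, ∃ v ∈ V, v • x₀ = y) :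
    Nat.card P ≤ Nat.card X * Nat.card V ^ Nat.log 2 (Nat.card V) := by
  classical
  have h1 : Nat.card (MulAction.stabilizer P x₀) * (MulAction.stabilizer P x₀).index
      = Nat.card P := Subgroup.card_mul_index _
  have h2 : (MulAction.stabilizer P x₀).index ≤ Nat.card X := by
    rw [MulAction.index_stabilizer]
    exact Nat.card_le_card_of_injective (Subtype.val : MulAction.orbit P x₀ → X)
      Subtype.val_injective
  have h3 : Nat.card (MulAction.stabilizer P x₀) ≤
      Nat.card V ^ Nat.log 2 (Nat.card V) := by
    refine le_trans ?_ (card_mulAut_le V)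
    have hinj : Function.Injective
        ((MulAut.conjNormal (H := V)).comp (MulAction.stabilizer P x₀).subtype) := by
      rw [injective_iff_map_eq_one]
      intro g hg
      apply Subtype.ext
      apply hf
      intro y
      obtain ⟨v, hv, rfl⟩ := hV y
      have h5 : (MulAut.conjNormal (H := V) (g : P)) ⟨v, hv⟩ = ⟨v, hv⟩ := by
        have h6 : MulAut.conjNormal (H := V) (g : P) = 1 := hg
        rw [h6]
        rfl
      have h7 := congrArg Subtype.val h5
      rw [MulAut.conjNormal_apply] at h7
      have h8 : (g : P) * v = v * (g : P) := by
        have h9 : (g : P) * v * (g : P)⁻¹ = v := h7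
        calc (g : P) * v = (g : P) * v * (g : P)⁻¹ * (g : P) := by group
          _ = v * (g : P) := by rw [h9]
      have hgx : (g : P) • x₀ = x₀ := g.2
      show (g : P) • v • x₀ = v • x₀
      rw [← mul_smul, h8, mul_smul, hgx]
    exact Nat.card_le_card_of_injective _ hinj
  rw [← h1, Nat.mul_comm]
  exact Nat.mul_le_mul h2 h3

end Pool.Agent.Helper7.BC
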